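import Mathlib

/-!
# Uncountable normal subgroups of uncountable index in profinite groups (MP_847604_al)

Every (abstract) normal subgroup of the profinite group `SL₂(ℤ₅)` is finite or of finite index.
-/

namespace Pool.Agent.Results.MP_847604_al.SLTwo

open Matrix Topology

section Gen

variable {R : Type} [CommRing R]

/-- The elementary matrix `[[1,x],[0,1]]`. -/
def E (x : R) : SpecialLinearGroup (Fin 2) R := ⟨!![1, x; 0, 1], by simp [Matrix.det_fin_two]⟩

/-- The elementary matrix `[[1,0],[x,1]]`. -/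
def F (x : R) : SpecialLinearGroup (Fin 2) R := ⟨!![1, 0; x, 1], by simp [Matrix.det_fin_two]⟩

/-- The diagonal matrix `diag(u,v)` with `u v = 1`. -/
def D (u v : R) (h : u * v = 1) : SpecialLinearGroup (Fin 2) R :=
  ⟨!![u, 0; 0, v], by simp [Matrix.det_fin_two, h]⟩

/-- The Weyl element. -/
def W : SpecialLinearGroup (Fin 2) R := ⟨!![0, 1; -1, 0], by simp [Matrix.det_fin_two]⟩

theorem det_eq (g : SpecialLinearGroup (Fin 2) R) : g 0 0 * g 1 1 - g 0 1 * g 1 0 = 1 := by
  have := g.2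
  rw [Matrix.det_fin_two] at this
  exact this

theorem ext2 (g h : SpecialLinearGroup (Fin 2) R) (h00 : g 0 0 = h 0 0) (h01 : g 0 1 = h 0 1)
    (h10 : g 1 0 = h 1 0) (h11 : g 1 1 = h 1 1) : g = h := by
  ext i j
  fin_cases i <;> fin_cases j <;> assumption

theorem mul00 (g h : SpecialLinearGroup (Fin 2) R) : (g * h) 0 0 = g 0 0 * h 0 0 + g 0 1 * h 1 0 := by
  simp [Matrix.mul_apply, Fin.sum_univ_two]
theorem mul01 (g h : SpecialLinearGroup (Fin 2) R) : (g * h) 0 1 = g 0 0 * h 0 1 + g 0 1 * h 1 1 := by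
  simp [Matrix.mul_apply, Fin.sum_univ_two]
theorem mul10 (g h : SpecialLinearGroup (Fin 2) R) : (g * h) 1 0 = g 1 0 * h 0 0 + g 1 1 * h 1 0 := by
  simp [Matrix.mul_apply, Fin.sum_univ_two]
theorem mul11 (g h : SpecialLinearGroup (Fin 2) R) : (g * h) 1 1 = g 1 0 * h 0 1 + g 1 1 * h 1 1 := by
  simp [Matrix.mul_apply, Fin.sum_univ_two]
theorem inv00 (g : SpecialLinearGroup (Fin 2) R) : (g⁻¹) 0 0 = g 1 1 := by
  simp [Matrix.adjugate_fin_two]
theorem inv01 (g : SpecialLinearGroup (Fin 2) R) : (g⁻¹) 0 1 = -g 0 1 := by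
  simp [Matrix.adjugate_fin_two]
theorem inv10 (g : SpecialLinearGroup (Fin 2) R) : (g⁻¹) 1 0 = -g 1 0 := by
  simp [Matrix.adjugate_fin_two]
theorem inv11 (g : SpecialLinearGroup (Fin 2) R) : (g⁻¹) 1 1 = g 0 0 := by
  simp [Matrix.adjugate_fin_two]

@[simp] theorem E00 (x : R) : (E x) 0 0 = 1 := rfl
@[simp] theorem E01 (x : R) : (E x) 0 1 = x := rfl
@[simp] theorem E10 (x : R) : (E x) 1 0 = 0 := rfl
@[simp] theorem E11 (x : R) : (E x) 1 1 = 1 := rfl
@[simp] theorem F00 (x : R) : (F x) 0 0 = 1 := rfl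
@[simp] theorem F01 (x : R) : (F x) 0 1 = 0 := rfl
@[simp] theorem F10 (x : R) : (F x) 1 0 = x := rfl
@[simp] theorem F11 (x : R) : (F x) 1 1 = 1 := rfl
@[simp] theorem D00 (u v : R) (h : u * v = 1) : (D u v h) 0 0 = u := rfl
@[simp] theorem D01 (u v : R) (h : u * v = 1) : (D u v h) 0 1 = 0 := rfl
@[simp] theorem D10 (u v : R) (h : u * v = 1) : (D u v h) 1 0 = 0 := rfl
@[simp] theorem D11 (u v : R) (h : u * v = 1) : (D u v h) 1 1 = v := rfl
@[simp] theorem W00 : (W : SpecialLinearGroup (Fin 2) R) 0 0 = 0 := rfl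
@[simp] theorem W01 : (W : SpecialLinearGroup (Fin 2) R) 0 1 = 1 := rfl
@[simp] theorem W10 : (W : SpecialLinearGroup (Fin 2) R) 1 0 = -1 := rfl
@[simp] theorem W11 : (W : SpecialLinearGroup (Fin 2) R) 1 1 = 0 := rfl

theorem E_mul (x y : R) : E x * E y = E (x + y) := by
  apply ext2 <;> simp [mul00, mul01, mul10, mul11, add_comm]

theorem E_inv (x : R) : (E x)⁻¹ = E (-x) := by
  apply ext2 <;> simp [inv00, inv01, inv10, inv11]

variable {N : Subgroup (SpecialLinearGroup (Fin 2) R)}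

theorem mem_add {x y : R} (hx : E x ∈ N) (hy : E y ∈ N) : E (x + y) ∈ N := by
  rw [← E_mul]; exact N.mul_mem hx hy

theorem mem_neg {x : R} (hx : E x ∈ N) : E (-x) ∈ N := by
  rw [← E_inv]; exact N.inv_mem hx

theorem mem_sub {x y : R} (hx : E x ∈ N) (hy : E y ∈ N) : E (x - y) ∈ N := by
  rw [sub_eq_add_neg]; exact mem_add hx (mem_neg hy)

theorem mem_sq [hN : N.Normal] {x : R} (hx : E x ∈ N) {u v : R} (h : u * v = 1) :
    E (u ^ 2 * x) ∈ N := by
  have h1 := hN.conj_mem _ hx (D u v h)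
  have h2 : D u v h * E x * (D u v h)⁻¹ = E (u ^ 2 * x) := by
    apply ext2 <;> simp [mul00, mul01, mul10, mul11, inv00, inv01, inv10, inv11, h]
    · ring
    · rw [mul_comm]; exact h
  rwa [h2] at h1

theorem mem_F [hN : N.Normal] {x : R} (hx : E x ∈ N) : F x ∈ N := by
  have h1 := hN.conj_mem _ (mem_neg hx) W
  have h2 : W * E (-x) * W⁻¹ = F x := by
    apply ext2 <;> simp [mul00, mul01, mul10, mul11, inv00, inv01, inv10, inv11]
  rwa [h2] at h1

/-- If `k ∈ N` is upper triangular then `E (k₀₀² - 1) ∈ N`. -/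
theorem mem_of_upper [hN : N.Normal] {k : SpecialLinearGroup (Fin 2) R} (hk : k ∈ N)
    (h10 : k 1 0 = 0) : E (k 0 0 ^ 2 - 1) ∈ N := by
  have h1 := hN.conj_mem _ (N.inv_mem hk) (E 1)
  have h2 := N.mul_mem hk h1
  have hd := det_eq k
  rw [h10, mul_zero, sub_zero] at hd
  have h3 : k * (E 1 * k⁻¹ * (E 1)⁻¹) = E (k 0 0 ^ 2 - 1) := by
    apply ext2 <;> simp [mul00, mul01, mul10, mul11, inv00, inv01, inv10, inv11, h10]
    · exact hd
    · linear_combination -hd
    · linear_combination hd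
  rwa [h3] at h2

/-- The commutator trick. -/
theorem exists_upper [hN : N.Normal] {g : SpecialLinearGroup (Fin 2) R} (hg : g ∈ N)
    {u v t : R} (huv : u * v = 1) (ht : t * g 1 0 = (u - v) * g 1 1) :
    ∃ k ∈ N, k 1 0 = 0 ∧ k 0 0 = u ^ 2 := by
  let h : SpecialLinearGroup (Fin 2) R := ⟨!![u, t; 0, v], by simp [Matrix.det_fin_two, huv]⟩
  have h00 : h 0 0 = u := rfl
  have h01 : h 0 1 = t := rfl
  have h10 : h 1 0 = 0 := rfl
  have h11 : h 1 1 = v := rfl
  have hd := det_eq g
  refine ⟨h * g * h⁻¹ * g⁻¹, N.mul_mem (hN.conj_mem _ hg h) (N.inv_mem hg), ?_, ?_⟩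
  · simp only [mul10, mul11, inv00, inv01, inv10, inv11, h00, h01, h10, h11]
    linear_combination (v * g 1 0) * ht
  · simp only [mul00, mul01, inv00, inv01, inv10, inv11, h00, h01, h10, h11]
    linear_combination (v * g 1 1 + u * g 0 0 + t * g 1 0 + (u - v) * g 1 1 - u * g 1 1) * ht
      + u ^ 2 * hd

end Gen

section Five

instance fact5 : Fact (Nat.Prime 5) := ⟨by norm_num⟩

theorem isUnit_iff5 (x : ℤ_[5]) : IsUnit x ↔ PadicInt.toZMod x ≠ 0 := by
  rw [ne_eq, ← RingHom.mem_ker, PadicInt.ker_toZMod, IsLocalRing.mem_maximalIdeal, mem_nonunits_iff,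
    not_not]

theorem exists_inv5 {x : ℤ_[5]} (h : PadicInt.toZMod x ≠ 0) : ∃ y, x * y = 1 :=
  isUnit_iff_exists_inv.1 ((isUnit_iff5 x).2 h)

variable {N : Subgroup (SpecialLinearGroup (Fin 2) ℤ_[5])}

theorem mem_mul_aux [hN : N.Normal] {x : ℤ_[5]} (hx : E x ∈ N) (r : ℤ_[5])
    (h1 : PadicInt.toZMod r ≠ 1) (h2 : PadicInt.toZMod r ≠ -1) : E (r * x) ∈ N := by
  obtain ⟨w, hw⟩ : ∃ w : ℤ_[5], 2 * w = 1 := exists_inv5 (by
    rw [map_ofNat]; decide)
  have hu : PadicInt.toZMod ((r + 1) * w) ≠ 0 := by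
    intro h
    apply h2
    have h3 : PadicInt.toZMod ((r + 1) * w * 2) = 0 := by rw [map_mul, h, zero_mul]
    have h4 : (r + 1) * w * 2 = r + 1 := by linear_combination (r + 1) * hw
    rw [h4, map_add, map_one] at h3
    exact eq_neg_of_add_eq_zero_left h3
  have hv : PadicInt.toZMod ((r - 1) * w) ≠ 0 := by
    intro h
    apply h1
    have h3 : PadicInt.toZMod ((r - 1) * w * 2) = 0 := by rw [map_mul, h, zero_mul]
    have h4 : (r - 1) * w * 2 = r - 1 := by linear_combination (r - 1) * hw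
    rw [h4, map_sub, map_one] at h3
    exact sub_eq_zero.1 h3
  obtain ⟨u', hu'⟩ := exists_inv5 hu
  obtain ⟨v', hv'⟩ := exists_inv5 hv
  have h5 := mem_sub (mem_sq hx hu') (mem_sq hx hv')
  have h6 : ((r + 1) * w) ^ 2 * x - ((r - 1) * w) ^ 2 * x = r * x := by
    linear_combination (2 * w + 1) * (r * x) * hw
  rwa [h6] at h5

theorem mem_mul [hN : N.Normal] {x : ℤ_[5]} (hx : E x ∈ N) (r : ℤ_[5]) : E (r * x) ∈ N := by
  by_cases h1 : PadicInt.toZMod r = 1
  · have h2 : E ((r - 3) * x) ∈ N := mem_mul_aux hx _ (by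
      rw [map_sub, h1, map_ofNat]; decide) (by rw [map_sub, h1, map_ofNat]; decide)
    have h3 : E (3 * x) ∈ N := mem_mul_aux hx _ (by rw [map_ofNat]; decide)
      (by rw [map_ofNat]; decide)
    have h4 := mem_add h2 h3
    rwa [← add_mul, sub_add_cancel] at h4
  · by_cases h1' : PadicInt.toZMod r = -1
    · have h2 : E ((r - 2) * x) ∈ N := mem_mul_aux hx _ (by
        rw [map_sub, h1', map_ofNat]; decide) (by rw [map_sub, h1', map_ofNat]; decide)
      have h3 : E (2 * x) ∈ N := mem_mul_aux hx _ (by rw [map_ofNat]; decide)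
        (by rw [map_ofNat]; decide)
      have h4 := mem_add h2 h3
      rwa [← add_mul, sub_add_cancel] at h4
    · exact mem_mul_aux hx r h1 h1'

/-- A non-central normal subgroup contains a nontrivial elementary matrix. -/
theorem exists_E [hN : N.Normal] {g : SpecialLinearGroup (Fin 2) ℤ_[5]} (hg : g ∈ N)
    (hc : g 1 0 ≠ 0) : ∃ x : ℤ_[5], x ≠ 0 ∧ E x ∈ N := by
  have h5 : PadicInt.toZMod (5 : ℤ_[5]) = 0 := by rw [map_ofNat]; decide
  have hu0 : PadicInt.toZMod (1 + 5 * g 1 0) = 1 := by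
    rw [map_add, map_mul, h5, map_one, zero_mul, add_zero]
  obtain ⟨v, hv⟩ := exists_inv5 (x := 1 + 5 * g 1 0) (by rw [hu0]; decide)
  obtain ⟨k, hk, h10, h00⟩ := exists_upper (u := 1 + 5 * g 1 0) (v := v)
    (t := v * 5 * (2 + 5 * g 1 0) * g 1 1) hg hv (by
      linear_combination (g 1 1 * (1 + 5 * g 1 0)) * hv)
  refine ⟨_, ?_, mem_of_upper hk h10⟩
  rw [h00]
  set u : ℤ_[5] := 1 + 5 * g 1 0 with hudef
  have e1 : (u ^ 2) ^ 2 - 1 = (u - 1) * (u + 1) * (u ^ 2 + 1) := by ring
  rw [e1]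
  refine mul_ne_zero (mul_ne_zero ?_ ?_) ?_
  · rw [hudef, add_sub_cancel_left]
    exact mul_ne_zero (by norm_num) hc
  · intro h
    have := congrArg PadicInt.toZMod h
    rw [map_add, hu0, map_one, map_zero] at this
    revert this; decide
  · intro h
    have := congrArg PadicInt.toZMod h
    rw [map_add, map_pow, hu0, map_one, map_zero] at this
    revert this; decide

theorem central_or_E [hN : N.Normal] {g : SpecialLinearGroup (Fin 2) ℤ_[5]} (hg : g ∈ N) :
    (g = 1 ∨ g = -1) ∨ ∃ x : ℤ_[5], x ≠ 0 ∧ E x ∈ N := by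
  by_cases hc : g 1 0 = 0
  swap
  · exact Or.inr (exists_E hg hc)
  by_cases hb : g 0 1 = 0
  swap
  · right
    refine exists_E (hN.conj_mem _ hg W) ?_
    simp [mul10, mul11, inv00, inv10, hb]
  by_cases ha : g 0 0 ^ 2 = 1
  swap
  · right
    exact ⟨_, sub_ne_zero.2 ha, mem_of_upper hg hc⟩
  left
  have hd := det_eq g
  rw [hc, mul_zero, sub_zero] at hd
  have ha' : (g 0 0 - 1) * (g 0 0 + 1) = 0 := by linear_combination ha
  rcases (mul_eq_zero.1 ha').imp sub_eq_zero.1 eq_neg_of_add_eq_zero_left with h | h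
  · left
    rw [h, one_mul] at hd
    apply ext2 <;> simp [h, hb, hc, hd]
  · right
    rw [h] at hd
    have hd' : g 1 1 = -1 := by linear_combination -hd
    apply ext2 <;> simp [h, hb, hc, hd']

theorem mem_D [hN : N.Normal] {x : ℤ_[5]} (hx : E x ∈ N) {u v : ℤ_[5]} (huv : u * v = 1)
    (r : ℤ_[5]) (hu : u = 1 + r * x) : D u v huv ∈ N := by
  have h1 : E (r * x) ∈ N := mem_mul hx r
  have h2 := hN.conj_mem _ h1 (F (-1))
  have h3 : F (r * x * v) ∈ N := mem_F (by
    have := mem_mul hx (r * v)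
    rwa [show r * v * x = r * x * v by ring] at this)
  have h4 : E (-(v * (r * x))) ∈ N := mem_neg (by
    have := mem_mul hx (v * r)
    rwa [mul_assoc] at this)
  have h5 := N.mul_mem (N.mul_mem h3 h2) h4
  have h6 : F (r * x * v) * (F (-1) * E (r * x) * (F (-1))⁻¹) * E (-(v * (r * x))) = D u v huv := by
    have hx' : r * x = u - 1 := by rw [hu]; ring
    rw [hx']
    apply ext2 <;> simp only [mul00, mul01, mul10, mul11, inv00, inv01, inv10, inv11, E00, E01, E10,
      E11, F00, F01, F10, F11, D00, D01, D10, D11]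
    · ring
    · linear_combination (-(u - 1)) * huv
    · linear_combination (u - 1) * huv
    · linear_combination (-(u - 1) ^ 2 * v + u - 2) * huv
  rwa [h6] at h5

/-- If `N` contains `E x` it contains the whole congruence subgroup of level `5 x`. -/
theorem mem_congr [hN : N.Normal] {x : ℤ_[5]} (hx : E x ∈ N)
    {g : SpecialLinearGroup (Fin 2) ℤ_[5]} (h00 : 5 * x ∣ g 0 0 - 1) (h01 : 5 * x ∣ g 0 1)
    (h10 : 5 * x ∣ g 1 0) : g ∈ N := by
  obtain ⟨r, hr⟩ := h00
  obtain ⟨s, hs⟩ := h01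
  obtain ⟨t, ht⟩ := h10
  have h5 : PadicInt.toZMod (5 : ℤ_[5]) = 0 := by rw [map_ofNat]; decide
  have h00' : g 0 0 = 1 + 5 * x * r := by rw [← hr]; ring
  have hu0 : PadicInt.toZMod (g 0 0) = 1 := by
    rw [h00', map_add, map_mul, map_mul, h5, map_one, zero_mul, zero_mul, add_zero]
  obtain ⟨v, hv⟩ := exists_inv5 (x := g 0 0) (by rw [hu0]; decide)
  have h1 : D (g 0 0) v hv ∈ N := mem_D hx hv (5 * r) (by rw [h00']; ring)
  have h2 : F (g 1 0 * v) ∈ N := mem_F (by
    have := mem_mul hx (5 * t * v)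
    rwa [show 5 * t * v * x = g 1 0 * v by rw [ht]; ring] at this)
  have h3 : E (v * g 0 1) ∈ N := by
    have := mem_mul hx (v * 5 * s)
    rwa [show v * 5 * s * x = v * g 0 1 by rw [hs]; ring] at this
  have h4 := N.mul_mem (N.mul_mem h2 h1) h3
  have hd := det_eq g
  have h6 : F (g 1 0 * v) * D (g 0 0) v hv * E (v * g 0 1) = g := by
    apply ext2 <;> simp only [mul00, mul01, mul10, mul11, E00, E01, E10,
      E11, F00, F01, F10, F11, D00, D01, D10, D11]
    · ring
    · linear_combination (g 0 1) * hv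
    · linear_combination (g 1 0) * hv
    · linear_combination (v * g 0 1 * g 1 0 + g 1 1) * hv - v * hd
  rwa [h6] at h4

/-- Every normal subgroup of `SL₂(ℤ₅)` is finite or of finite index. -/
theorem finite_or_finiteIndex (N : Subgroup (SpecialLinearGroup (Fin 2) ℤ_[5])) (hN : N.Normal) :
    (N : Set (SpecialLinearGroup (Fin 2) ℤ_[5])).Finite ∨
      Finite (SpecialLinearGroup (Fin 2) ℤ_[5] ⧸ N) := by
  by_cases h : ∃ x : ℤ_[5], x ≠ 0 ∧ E x ∈ N
  swap
  · left
    refine Set.Finite.subset (Set.toFinite {1, -1}) ?_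
    intro g hg
    rcases central_or_E hg with h1 | h1
    · exact h1
    · exact absurd h1 h
  · right
    obtain ⟨x, hx0, hx⟩ := h
    set n := x.valuation + 1 with hn
    have hle : (SpecialLinearGroup.map (n := Fin 2) (PadicInt.toZModPow (p := 5) n)).ker ≤ N := by
      intro g hg
      rw [MonoidHom.mem_ker] at hg
      have hdvd : ∀ y : ℤ_[5], PadicInt.toZModPow n y = 0 → 5 * x ∣ y := by
        intro y hy
        rw [← RingHom.mem_ker, PadicInt.ker_toZModPow, Ideal.mem_span_singleton] at hy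
        refine dvd_trans ?_ hy
        obtain ⟨w, hw⟩ := (PadicInt.unitCoeff hx0).isUnit.exists_right_inv
        refine ⟨w, ?_⟩
        have h7 := PadicInt.unitCoeff_spec hx0
        push_cast at h7 ⊢
        rw [hn, pow_succ]
        calc (5 : ℤ_[5]) ^ x.valuation * 5
            = 5 * ((PadicInt.unitCoeff hx0 : ℤ_[5]) * 5 ^ x.valuation) * w := by
              linear_combination (-(5 : ℤ_[5]) ^ x.valuation * 5) * hw
          _ = 5 * x * w := by rw [← h7]
      have e := fun i j => congrArg (fun M : SpecialLinearGroup (Fin 2) (ZMod (5 ^ n)) => M i j) hg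
      refine mem_congr hx (hdvd _ ?_) (hdvd _ ?_) (hdvd _ ?_)
      · have := e 0 0
        simp at this
        rw [map_sub, this, map_one, sub_self]
      · have := e 0 1
        simp at this
        exact this
      · have := e 1 0
        simp at this
        exact this
    have : NeZero (5 ^ n) := ⟨by positivity⟩
    have : Finite (SpecialLinearGroup (Fin 2) (ZMod (5 ^ n))) := Subtype.finite
    have : (SpecialLinearGroup.map (n := Fin 2) (PadicInt.toZModPow (p := 5) n)).ker.FiniteIndex :=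
      Subgroup.finiteIndex_ker _
    have : N.FiniteIndex := Subgroup.finiteIndex_of_le hle
    infer_instance

theorem uncountable5 : Uncountable ℤ_[5] := by
  have hp : Perfect (Set.univ : Set ℤ_[5]) := by
    refine ⟨isClosed_univ, ?_⟩
    intro x _
    have h1 : x ∈ closure ({x}ᶜ : Set ℤ_[5]) := by
      rw [Metric.mem_closure_iff]
      intro ε hε
      obtain ⟨n, hn⟩ := exists_pow_lt_of_lt_one hε (by norm_num : (1 / 5 : ℝ) < 1)
      refine ⟨x + (5 : ℕ) ^ n, ?_, ?_⟩
      · simp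
      · rw [dist_eq_norm, sub_add_cancel_left, norm_neg, PadicInt.norm_p_pow]
        simpa using hn
    rw [mem_closure_iff_nhdsWithin_neBot] at h1
    rw [AccPt, Filter.principal_univ, inf_top_eq]
    exact h1
  obtain ⟨f, -, -, hf⟩ := hp.exists_nat_bool_injection ⟨0, trivial⟩
  have : Uncountable (ℕ → Bool) := by
    rw [uncountable_iff_forall_not_surjective]
    intro f hf
    obtain ⟨n, hn⟩ := hf (fun n => !(f n n))
    have := congrFun hn n
    simp at this
  exact hf.uncountable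

/-- There is an uncountable compact metrizable non-archimedean group (namely `SL₂(ℤ₅)`) all of
whose normal subgroups are finite or of finite index. -/
theorem result : ∃ (G : Type) (_ : Group G) (_ : TopologicalSpace G),
    NonarchimedeanGroup G ∧ T2Space G ∧ CompactSpace G ∧ TopologicalSpace.MetrizableSpace G ∧
    Uncountable G ∧
    ∀ N : Subgroup G, N.Normal → (N : Set G).Finite ∨ Finite (G ⧸ N) := by
  have hce : IsClosedEmbedding
      ((↑) : SpecialLinearGroup (Fin 2) ℤ_[5] → Matrix (Fin 2) (Fin 2) ℤ_[5]) :=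
    SpecialLinearGroup.isClosedEmbedding_val
  have hT2 : T2Space (SpecialLinearGroup (Fin 2) ℤ_[5]) := hce.isEmbedding.t2Space
  have hC : CompactSpace (SpecialLinearGroup (Fin 2) ℤ_[5]) := by
    have : CompactSpace (Matrix (Fin 2) (Fin 2) ℤ_[5]) :=
      inferInstanceAs (CompactSpace (Fin 2 → Fin 2 → ℤ_[5]))
    exact hce.compactSpace
  have hTD : TotallyDisconnectedSpace (SpecialLinearGroup (Fin 2) ℤ_[5]) := by
    have : TotallyDisconnectedSpace (Matrix (Fin 2) (Fin 2) ℤ_[5]) :=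
      inferInstanceAs (TotallyDisconnectedSpace (Fin 2 → Fin 2 → ℤ_[5]))
    exact ⟨isTotallyDisconnected_of_image hce.continuous.continuousOn hce.injective
      (isTotallyDisconnected_of_totallyDisconnectedSpace _)⟩
  refine ⟨SpecialLinearGroup (Fin 2) ℤ_[5], inferInstance, inferInstance, ?_, hT2, hC, ?_, ?_,
    finite_or_finiteIndex⟩
  · refine { is_nonarchimedean := ?_ }
    intro U hU
    obtain ⟨V, hV⟩ := ProfiniteGrp.exist_openNormalSubgroup_sub_open_nhds_of_one
      (isOpen_interior (s := U)) (mem_interior_iff_mem_nhds.2 hU)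
    exact ⟨V.toOpenSubgroup, hV.trans interior_subset⟩
  · have : TopologicalSpace.MetrizableSpace (Matrix (Fin 2) (Fin 2) ℤ_[5]) :=
      inferInstanceAs (TopologicalSpace.MetrizableSpace (Fin 2 → Fin 2 → ℤ_[5]))
    exact hce.isEmbedding.metrizableSpace
  · have := uncountable5
    refine Function.Injective.uncountable (f := fun x : ℤ_[5] => E x) ?_
    intro x y hxy
    have := congrArg (fun M : SpecialLinearGroup (Fin 2) ℤ_[5] => M 0 1) hxy
    simpa using this

end Five

end Pool.Agent.Results.MP_847604_al.SLTwo
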